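import Mathlib

set_option autoImplicit false

open Set Topology Filter

universe u

namespace Pool.Agent.Results.MP_dd23d5_gt.CountablyGenerated

variable {P : Type u} [PartialOrder P] [TopologicalSpace P] [Topology.IsScott P Set.univ]

lemma closed_lower {C : Set P} (hC : IsClosed C) : IsLowerSet C :=
  (Topology.IsScott.isClosed_iff_isLowerSet_and_dirSupClosed.1 hC).1

lemma closed_sup {C : Set P} (hC : IsClosed C) {D : Set P} (hDC : D ⊆ C) (hne : D.Nonempty)
    (hdir : DirectedOn (· ≤ ·) D) {x : P} (hx : IsLUB D x) : x ∈ C :=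
  (Topology.IsScott.isClosed_iff_isLowerSet_and_dirSupClosed.1 hC).2 hDC hne hdir hx

lemma open_upper {U : Set P} (hU : IsOpen U) : IsUpperSet U :=
  Topology.IsScott.isUpperSet_of_isOpen (D := Set.univ) hU

lemma isClosed_of {C : Set P} (h1 : IsLowerSet C)
    (h2 : ∀ D ⊆ C, D.Nonempty → DirectedOn (· ≤ ·) D → ∀ x, IsLUB D x → x ∈ C) : IsClosed C := by
  rw [Topology.IsScott.isClosed_iff_isLowerSet_and_dirSupClosed]
  exact ⟨h1, fun D hDC hne hdir x hx => h2 D hDC hne hdir x hx⟩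

lemma open_meets {U : Set P} (hU : IsOpen U) {D : Set P} (hne : D.Nonempty)
    (hdir : DirectedOn (· ≤ ·) D) {x : P} (hx : IsLUB D x) (hxU : x ∈ U) : ∃ d ∈ D, d ∈ U := by
  by_contra hcon
  push Not at hcon
  exact closed_sup hU.isClosed_compl (fun d hd => hcon d hd) hne hdir hx hxU

/-- The key lemma: a sequence which is eventually in every open set meeting the closed set `A` has
infinitely many members above some point of `W ∩ A`, for every open `W` meeting `A`. -/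
lemma exists_below {A : Set P} (hA : IsClosed A) {b : ℕ → P} (hbA : ∀ k, b k ∈ A)
    (hb : ∀ U : Set P, IsOpen U → (U ∩ A).Nonempty → ∀ᶠ k in atTop, b k ∈ U)
    {W : Set P} (hW : IsOpen W) (hWA : (W ∩ A).Nonempty) :
    ∃ d ∈ W ∩ A, ∀ N, ∃ k, N ≤ k ∧ d ≤ b k := by
  classical
  by_contra hcon
  push Not at hcon
  have hclosed : ∀ N, IsClosed {x | x ∈ A ∧ (x ∈ W → ∃ k, N ≤ k ∧ x ≤ b k)} := by
    intro N
    refine isClosed_of ?_ ?_
    · rintro x y hyx ⟨hx, h⟩
      refine ⟨closed_lower hA hyx hx, fun hyW => ?_⟩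
      obtain ⟨k, hk, hxk⟩ := h (open_upper hW hyx hyW)
      exact ⟨k, hk, hyx.trans hxk⟩
    · intro D hD hne hdir p hp
      refine ⟨closed_sup hA (fun d hd => (hD hd).1) hne hdir hp, fun hpW => ?_⟩
      obtain ⟨d₀, hd₀, hd₀W⟩ := open_meets hW hne hdir hp hpW
      obtain ⟨N₀, hN₀⟩ := hcon d₀ ⟨hd₀W, (hD hd₀).1⟩
      by_contra hno
      push Not at hno
      -- for each index, a member of `D` not below `b k`
      have hex : ∀ k, N ≤ k → ∃ d ∈ D, ¬ d ≤ b k := by
        intro k hk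
        by_contra hall
        push Not at hall
        exact hno k hk (hp.2 fun d hd => hall d hd)
      have key : ∀ n, ∃ d ∈ D, d₀ ≤ d ∧ ∀ k, k < n → N ≤ k → ¬ d ≤ b k := by
        intro n
        induction n with
        | zero => exact ⟨d₀, hd₀, le_rfl, fun k hk => absurd hk (Nat.not_lt_zero k)⟩
        | succ n ih =>
          obtain ⟨d, hd, h0, hk⟩ := ih
          by_cases hn : N ≤ n
          · obtain ⟨d', hd', hn'⟩ := hex n hn
            obtain ⟨e, he, hde, hd'e⟩ := hdir d hd d' hd'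
            refine ⟨e, he, h0.trans hde, fun k hkn hNk hek => ?_⟩
            rcases Nat.lt_succ_iff_lt_or_eq.1 hkn with h | rfl
            · exact hk k h hNk (hde.trans hek)
            · exact hn' (hd'e.trans hek)
          · refine ⟨d, hd, h0, fun k hkn hNk => hk k ?_ hNk⟩
            omega
      obtain ⟨d, hd, h0, hk⟩ := key N₀
      obtain ⟨k, hNk, hdk⟩ := (hD hd).2 (open_upper hW h0 hd₀W)
      by_cases hkN : k < N₀
      · exact hk k hkN hNk hdk
      · exact hN₀ k (not_lt.1 hkN) (h0.trans hdk)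
  obtain ⟨x, hxW, hxA⟩ := hWA
  obtain ⟨N, hN⟩ := hcon x ⟨hxW, hxA⟩
  have hxN : x ∉ {x | x ∈ A ∧ (x ∈ W → ∃ k, N ≤ k ∧ x ≤ b k)} := by
    rintro ⟨_, h⟩
    obtain ⟨k, hk, hxk⟩ := h hxW
    exact hN k hk hxk
  have := hb _ (hclosed N).isOpen_compl ⟨x, hxN, hxA⟩
  obtain ⟨k, hk1, hk2⟩ := (this.and (eventually_ge_atTop N)).exists
  exact hk1 ⟨hbA k, fun _ => ⟨k, hk2, le_rfl⟩⟩

/-- Let the open sets meeting the closed set `A` have a countable base `V n` each member of which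
contains a countably generated upper set having a member of the base inside it.
Then some point of `A` lies in all `V n`. -/
lemma exists_top (hdcpo : ∀ D : Set P, D.Nonempty → DirectedOn (· ≤ ·) D → ∃ x, IsLUB D x)
    {A : Set P} (hA : IsClosed A) (V : ℕ → Set P) (hVo : ∀ n, IsOpen (V n)) (hanti : Antitone V)
    (hVA : ∀ n, (V n ∩ A).Nonempty)
    (hbase : ∀ U : Set P, IsOpen U → (U ∩ A).Nonempty → ∃ n, V n ⊆ U) (E : ℕ → Set P)
    (hEc : ∀ n, (E n).Countable) (hEV : ∀ n, E n ⊆ V n)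
    (hE : ∀ n, ∃ k, ∀ y ∈ V k, ∃ e ∈ E n, e ≤ y) : ∃ g ∈ A, ∀ n, g ∈ V n := by
  classical
  set 𝓔 : Set P := ⋃ n, E n ∩ A with h𝓔
  have hc : 𝓔.Countable := countable_iUnion fun n => (hEc n).mono inter_subset_left
  have h𝓔A : 𝓔 ⊆ A := iUnion_subset fun n => inter_subset_right
  have hin : ∀ n e, e ∈ E n → e ∈ A → e ∈ 𝓔 := fun n e h1 h2 => mem_iUnion.2 ⟨n, h1, h2⟩
  have hne : ∀ n, ∃ e ∈ 𝓔, e ∈ V n := by
    intro n
    obtain ⟨k, hk⟩ := hE n
    obtain ⟨y, hyV, hyA⟩ := hVA k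
    obtain ⟨e, he, hey⟩ := hk y hyV
    exact ⟨e, hin n e he (closed_lower hA hey hyA), hEV n he⟩
  let r : ℕ × P → ℕ × P → Prop := fun p q => q.1 < p.1 ∧ q.2 ≤ p.2 ∧ p.2 ∈ V p.1 ∧ p.2 ∈ 𝓔
  by_cases hwf : WellFounded r
  · exfalso
    let ρ : ℕ × P → Ordinal.{u} := fun p => (hwf.apply p).rank
    let S : Set Ordinal.{u} := {β | ∃ k, ∀ e ∈ 𝓔, e ∈ V k → ρ (k, e) < β}
    have hS : S.Nonempty := by
      refine ⟨Order.succ (⨆ e : P, ρ (0, e)), 0, fun e _ _ => ?_⟩
      exact Order.lt_succ_of_le (Ordinal.le_iSup (fun e : P => ρ (0, e)) e)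
    obtain ⟨σ, ⟨k₀, hk₀⟩, hmin⟩ := WellFounded.has_min (wellFounded_lt (α := Ordinal.{u})) S hS
    have key1 : ∀ k, ∀ β < σ, ∃ e ∈ 𝓔, e ∈ V k ∧ β ≤ ρ (k, e) := by
      intro k β hβ
      by_contra hcon
      push Not at hcon
      exact hmin β ⟨k, fun e he heV => hcon e he heV⟩ hβ
    obtain ⟨e₀, he₀, he₀V⟩ := hne k₀
    obtain ⟨f, hf⟩ := hc.exists_eq_range ⟨e₀, he₀⟩
    have key2 : ∀ k, ∃ β < σ, ∀ i < k, f i ∈ V k₀ → ρ (k₀, f i) ≤ β := by
      intro k
      induction k with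
      | zero => exact ⟨ρ (k₀, e₀), hk₀ e₀ he₀ he₀V, fun i hi => absurd hi (Nat.not_lt_zero i)⟩
      | succ k ih =>
        obtain ⟨β, hβ, h⟩ := ih
        by_cases hfk : f k ∈ V k₀
        · refine ⟨max β (ρ (k₀, f k)), max_lt hβ (hk₀ _ (hf ▸ mem_range_self k) hfk), ?_⟩
          intro i hi hiV
          rcases Nat.lt_succ_iff_lt_or_eq.1 hi with hi | rfl
          · exact (h i hi hiV).trans (le_max_left _ _)
          · exact le_max_right _ _
        · refine ⟨β, hβ, fun i hi hiV => ?_⟩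
          rcases Nat.lt_succ_iff_lt_or_eq.1 hi with hi | rfl
          · exact h i hi hiV
          · exact absurd hiV hfk
    choose β hβ hβ' using key2
    have key3 : ∀ k, ∃ e ∈ 𝓔, e ∈ V k ∧ β k ≤ ρ (k, e) := fun k => key1 k (β k) (hβ k)
    choose b hb𝓔 hbV hbβ using key3
    obtain ⟨k₁, hk₁⟩ := hE k₀
    obtain ⟨d, ⟨hdV, hdA⟩, hd⟩ := exists_below hA (b := b) (fun k => h𝓔A (hb𝓔 k)) (by
      intro U hU hUA
      obtain ⟨n, hn⟩ := hbase U hU hUA
      filter_upwards [eventually_ge_atTop n] with k hk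
      exact hn (hanti hk (hbV k))) (hVo k₁) (hVA k₁)
    obtain ⟨e, he, hed⟩ := hk₁ d hdV
    have he𝓔 : e ∈ 𝓔 := hin k₀ e he (closed_lower hA hed hdA)
    obtain ⟨i, rfl⟩ : ∃ i, f i = e := by
      rw [hf] at he𝓔; exact he𝓔
    obtain ⟨k, hk, hdk⟩ := hd (max (i + 1) (k₀ + 1))
    have hr : r (k, b k) (k₀, f i) := ⟨by
      have := le_max_right (i + 1) (k₀ + 1)
      change k₀ < k
      omega, hed.trans hdk, hbV k, hb𝓔 k⟩
    have h1 : ρ (k, b k) < ρ (k₀, f i) := (hwf.apply (k₀, f i)).rank_lt_of_rel hr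
    have h2 : ρ (k₀, f i) ≤ β k := hβ' k i (by
      have := le_max_left (i + 1) (k₀ + 1)
      omega) (hEV k₀ he)
    exact absurd (h2.trans (hbβ k)) (not_le.2 h1)
  · rw [wellFounded_iff_isEmpty_descending_chain, not_isEmpty_iff] at hwf
    obtain ⟨f, hf⟩ := hwf
    have hmono : Monotone fun n => (f (n + 1)).2 :=
      monotone_nat_of_le_succ fun n => (hf (n + 1)).2.1
    have hidx : ∀ n, n ≤ (f n).1 := by
      intro n
      induction n with
      | zero => exact Nat.zero_le _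
      | succ n ih => exact lt_of_le_of_lt ih (hf n).1
    obtain ⟨g, hg⟩ := hdcpo (range fun n => (f (n + 1)).2) (range_nonempty _)
      (directedOn_range.2 hmono.directed_le)
    refine ⟨g, closed_sup hA ?_ (range_nonempty _) (directedOn_range.2 hmono.directed_le) hg, ?_⟩
    · rintro _ ⟨n, rfl⟩
      exact h𝓔A (hf n).2.2.2
    · intro n
      have h1 : (f (n + 1)).2 ∈ V (f (n + 1)).1 := (hf n).2.2.1
      have h2 : (f (n + 1)).2 ∈ V n := hanti ((Nat.le_succ n).trans (hidx (n + 1))) h1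
      exact open_upper (hVo n) (hg.1 ⟨n, rfl⟩) h2

lemma isClosed_Iic' (g : P) : IsClosed (Iic g) := by
  rw [← Topology.IsScott.closure_singleton (a := g)]
  exact isClosed_closure

/-- Two points of an irreducible closed set have an upper bound in it. -/
lemma upper_bound [FirstCountableTopology P]
    (hdcpo : ∀ D : Set P, D.Nonempty → DirectedOn (· ≤ ·) D → ∃ x, IsLUB D x)
    (hcg : ∀ (x : P) (U : Set P), IsOpen U → x ∈ U →
      ∃ E : Set P, E.Countable ∧ E ⊆ U ∧ x ∈ interior {y | ∃ e ∈ E, e ≤ y})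
    {S : Set P} (hS : IsClosed S) (hirr : IsIrreducible S) {a b : P} (ha : a ∈ S) (hb : b ∈ S) :
    ∃ g ∈ S, a ≤ g ∧ b ≤ g := by
  classical
  have hB : ∀ p : P, ∃ B : ℕ → Set P, (∀ k, IsOpen (B k)) ∧ Antitone B ∧ (∀ k, p ∈ B k) ∧
      ∀ U : Set P, IsOpen U → p ∈ U → ∃ k, B k ⊆ U := by
    intro p
    obtain ⟨x, hx⟩ := (𝓝 p).exists_antitone_basis
    refine ⟨fun k => interior (x k), fun k => isOpen_interior,
      fun i j hij => interior_mono (hx.antitone hij),
      fun k => mem_interior_iff_mem_nhds.2 (hx.mem k), fun U hU hpU => ?_⟩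
    obtain ⟨k, hk⟩ := hx.mem_iff.1 (hU.mem_nhds hpU)
    exact ⟨k, interior_subset.trans hk⟩
  choose B hBo hBanti hBmem hBbase using hB
  have hf : ∀ (F : Finset P) (n : ℕ), ∃ y, (F : Set P) ⊆ S → y ∈ S ∧ ∀ p ∈ F, y ∈ B p n := by
    intro F n
    by_cases hF : (F : Set P) ⊆ S
    · obtain ⟨y, hyS, hy⟩ := isIrreducible_iff_sInter.1 hirr (F.image fun p => B p n) (by
        intro u hu
        obtain ⟨p, _, rfl⟩ := Finset.mem_image.1 hu
        exact hBo p n) (by
        intro u hu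
        obtain ⟨p, hp, rfl⟩ := Finset.mem_image.1 hu
        exact ⟨p, hF hp, hBmem p n⟩)
      refine ⟨y, fun _ => ⟨hyS, fun p hp => ?_⟩⟩
      exact hy (B p n) (by
        rw [Finset.coe_image]
        exact ⟨p, hp, rfl⟩)
    · exact ⟨a, fun h => absurd h hF⟩
  choose f hf using hf
  obtain ⟨F, hF0, hFs⟩ : ∃ F : ℕ → Finset P, F 0 = {a, b} ∧
      ∀ n, F (n + 1) = insert (f (F n) n) (F n) :=
    ⟨fun n => Nat.rec {a, b} (fun n G => insert (f G n) G) n, rfl, fun _ => rfl⟩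
  have hFS : ∀ n, (F n : Set P) ⊆ S := by
    intro n
    induction n with
    | zero =>
      rw [hF0]
      intro x hx
      rcases (by simpa using hx : x = a ∨ x = b) with rfl | rfl
      · exact ha
      · exact hb
    | succ n ih =>
      rw [hFs, Finset.coe_insert]
      exact insert_subset (hf _ _ ih).1 ih
  have hFm : Monotone F := monotone_nat_of_le_succ fun n => by
    rw [hFs]; exact Finset.subset_insert _ _
  let y : ℕ → P := fun n => f (F n) n
  have hyF : ∀ n, y n ∈ F (n + 1) := fun n => by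
    rw [hFs]; exact Finset.mem_insert_self _ _
  have hyB : ∀ m p, p ∈ F m → ∀ n, m ≤ n → y n ∈ B p n := fun m p hp n hmn =>
    (hf _ _ (hFS n)).2 p (hFm hmn hp)
  let D : Set P := ⋃ n, (F n : Set P)
  have hDc : D.Countable := countable_iUnion fun n => Finset.countable_toSet (F n)
  have hDS : D ⊆ S := iUnion_subset hFS
  have hFD : ∀ n p, p ∈ F n → p ∈ D := fun n p hp => mem_iUnion.2 ⟨n, hp⟩
  have haD : a ∈ D := hFD 0 a (by rw [hF0]; simp)
  have hbD : b ∈ D := hFD 0 b (by rw [hF0]; simp)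
  set A : Set P := closure D with hAdef
  have hA : IsClosed A := isClosed_closure
  have hAS : A ⊆ S := closure_minimal hDS hS
  obtain ⟨δ, hδ⟩ := hDc.exists_eq_range ⟨a, haD⟩
  have hmeet : ∀ U : Set P, IsOpen U → (U ∩ A).Nonempty → ∃ p ∈ D, p ∈ U := by
    intro U hU hUA
    rw [inter_comm, closure_inter_open_nonempty_iff hU] at hUA
    obtain ⟨p, hpD, hpU⟩ := hUA
    exact ⟨p, hpD, hpU⟩
  let O : ℕ → Set P := fun i => B (δ i.unpair.1) i.unpair.2
  have hOy : ∀ i, ∀ᶠ m in atTop, y m ∈ O i := by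
    intro i
    have h1 : δ i.unpair.1 ∈ D := hδ ▸ mem_range_self _
    obtain ⟨m, hm⟩ := mem_iUnion.1 h1
    filter_upwards [eventually_ge_atTop m, eventually_ge_atTop i.unpair.2] with n hn1 hn2
    exact hBanti _ hn2 (hyB m _ hm n hn1)
  let V : ℕ → Set P := fun n => ⋂ i ∈ Finset.range (n + 1), O i
  have hVo : ∀ n, IsOpen (V n) := fun n => isOpen_biInter_finset fun i _ => hBo _ _
  have hVanti : Antitone V := by
    intro m n hmn
    exact biInter_subset_biInter_left (by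
      intro i hi
      have : i < m + 1 := Finset.mem_range.1 hi
      exact Finset.mem_range.2 (by omega))
  have hVy : ∀ n, ∀ᶠ m in atTop, y m ∈ V n := by
    intro n
    have := (Filter.eventually_all_finset (Finset.range (n + 1))).2 fun i _ => hOy i
    filter_upwards [this] with m hm
    exact mem_iInter₂.2 hm
  have hVD : ∀ n, ∃ p ∈ D, p ∈ V n := by
    intro n
    obtain ⟨m, hm⟩ := (hVy n).exists
    exact ⟨y m, hFD _ _ (hyF m), hm⟩
  have hVA : ∀ n, (V n ∩ A).Nonempty := by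
    intro n
    obtain ⟨p, hpD, hpV⟩ := hVD n
    exact ⟨p, hpV, subset_closure hpD⟩
  have hbase : ∀ U : Set P, IsOpen U → (U ∩ A).Nonempty → ∃ n, V n ⊆ U := by
    intro U hU hUA
    obtain ⟨p, hpD, hpU⟩ := hmeet U hU hUA
    obtain ⟨k, hk⟩ := hBbase p U hU hpU
    rw [hδ] at hpD
    obtain ⟨j, rfl⟩ := hpD
    refine ⟨Nat.pair j k, fun x hx => hk ?_⟩
    have := mem_iInter₂.1 hx (Nat.pair j k) (Finset.mem_range.2 (Nat.lt_succ_self _))
    simpa [O] using this
  have hEex : ∀ n, ∃ E : Set P, E.Countable ∧ E ⊆ V n ∧ ∃ k, ∀ z ∈ V k, ∃ e ∈ E, e ≤ z := by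
    intro n
    obtain ⟨p, hpD, hpV⟩ := hVD n
    obtain ⟨E, hEc, hEV, hE⟩ := hcg p (V n) (hVo n) hpV
    obtain ⟨k, hk⟩ := hbase _ isOpen_interior ⟨p, hE, subset_closure hpD⟩
    refine ⟨E, hEc, hEV, k, fun z hz => ?_⟩
    have h1 : z ∈ {y | ∃ e ∈ E, e ≤ y} := interior_subset (hk hz)
    exact h1
  choose E hEc hEV hE using hEex
  obtain ⟨g, hgA, hg⟩ := exists_top hdcpo hA V hVo hVanti hVA hbase E hEc hEV hE
  have hle : ∀ c ∈ D, c ≤ g := by
    intro c hc
    by_contra hcg'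
    obtain ⟨n, hn⟩ := hbase (Iic g)ᶜ (isClosed_Iic' g).isOpen_compl
      ⟨c, hcg', subset_closure hc⟩
    exact hn (hg n) (mem_Iic.2 le_rfl)
  exact ⟨g, hAS hgA, hle a haD, hle b hbD⟩

/-- The main theorem. -/
theorem sober_of_countablyGenerated [FirstCountableTopology P]
    (hdcpo : ∀ D : Set P, D.Nonempty → DirectedOn (· ≤ ·) D → ∃ x, IsLUB D x)
    (hcg : ∀ (x : P) (U : Set P), IsOpen U → x ∈ U →
      ∃ E : Set P, E.Countable ∧ E ⊆ U ∧ x ∈ interior {y | ∃ e ∈ E, e ≤ y}) :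
    QuasiSober P ∧ T0Space P := by
  refine ⟨⟨fun {S} hirr hS => ?_⟩, ?_⟩
  · have hdir : DirectedOn (· ≤ ·) S := by
      intro a ha b hb
      obtain ⟨g, hg, h1, h2⟩ := upper_bound hdcpo hcg hS hirr ha hb
      exact ⟨g, hg, h1, h2⟩
    obtain ⟨g, hg⟩ := hdcpo S hirr.1 hdir
    have hgS : g ∈ S := closed_sup hS Subset.rfl hirr.1 hdir hg
    refine ⟨g, ?_⟩
    rw [isGenericPoint_def, Topology.IsScott.closure_singleton]
    exact Subset.antisymm (fun x hx => closed_lower hS hx hgS) fun x hx => hg.1 hx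
  · refine ⟨fun x y hxy => ?_⟩
    have h1 : closure {x} = closure {y} := (inseparable_iff_closure_eq).1 hxy
    rw [Topology.IsScott.closure_singleton, Topology.IsScott.closure_singleton] at h1
    have h2 : x ∈ Iic y := h1 ▸ mem_Iic.2 le_rfl
    have h3 : y ∈ Iic x := h1 ▸ mem_Iic.2 le_rfl
    exact le_antisymm h2 h3

/-- Every point of a compact upper set lies above a minimal point of it. -/
lemma exists_minimal {K : Set P} (hK : IsCompact K) {y : P} (hy : y ∈ K) :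
    ∃ m, m ≤ y ∧ Minimal (· ∈ K) m := by
  have hlow : ∀ c : Set P, c ⊆ K → IsChain (fun x y : P => y ≤ x) c → ∀ z ∈ c,
      ∃ ub ∈ K, ∀ w ∈ c, ub ≤ w := by
    intro c hcK hchain z hz
    have hne : Nonempty c := ⟨⟨z, hz⟩⟩
    by_contra hcon
    push Not at hcon
    have hdir : Directed (· ⊇ ·) (fun z : c => Iic (z : P)) := by
      intro s t
      rcases hchain.total s.2 t.2 with h | h
      · exact ⟨t, fun x hx => le_trans hx h, Subset.rfl⟩
      · exact ⟨s, Subset.rfl, fun x hx => le_trans hx h⟩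
    have hemp : K ∩ ⋂ z : c, Iic (z : P) = ∅ := by
      by_contra hne'
      obtain ⟨x, hxK, hx⟩ := nonempty_iff_ne_empty.2 hne'
      obtain ⟨w, hw, hwx⟩ := hcon x hxK
      exact hwx (mem_iInter.1 hx ⟨w, hw⟩)
    obtain ⟨s, hs⟩ := IsCompact.elim_directed_family_closed hK
      (fun z : c => Iic (z : P)) (fun z => isClosed_Iic' _) hemp hdir
    have : (s : P) ∈ K ∩ Iic (s : P) := ⟨hcK s.2, mem_Iic.2 le_rfl⟩
    rw [hs] at this
    exact this
  obtain ⟨m, hm1, hm2⟩ := @zorn_le_nonempty₀ Pᵒᵈ _ (K : Set P)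
    (fun c hc hch z hz => hlow c hc hch z hz) y hy
  exact ⟨m, hm1, hm2.prop, fun z hz hzm => hm2.le_of_ge hz hzm⟩

/-- The case of locally compact Scott spaces. -/
theorem sober_of_locallyCompact [FirstCountableTopology P] [LocallyCompactSpace P]
    (hdcpo : ∀ D : Set P, D.Nonempty → DirectedOn (· ≤ ·) D → ∃ x, IsLUB D x)
    (hmin : ∀ K : Set P, IsCompact K → IsUpperSet K → {x | Minimal (· ∈ K) x}.Countable) :
    QuasiSober P ∧ T0Space P := by
  refine sober_of_countablyGenerated hdcpo fun x U hU hx => ?_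
  obtain ⟨K, hKx, hKU, hK⟩ := local_compact_nhds (hU.mem_nhds hx)
  let K' : Set P := {y | ∃ z ∈ K, z ≤ y}
  have hKK' : K ⊆ K' := fun z hz => ⟨z, hz, le_rfl⟩
  have hK'U : K' ⊆ U := fun y ⟨z, hz, hzy⟩ => open_upper hU hzy (hKU hz)
  have hup : IsUpperSet K' := fun y y' hyy' ⟨z, hz, hzy⟩ => ⟨z, hz, hzy.trans hyy'⟩
  have hK' : IsCompact K' := by
    refine isCompact_of_finite_subcover fun {ι} W hW hcov => ?_
    obtain ⟨t, ht⟩ := hK.elim_finite_subcover W hW (hKK'.trans hcov)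
    refine ⟨t, fun y ⟨z, hz, hzy⟩ => ?_⟩
    obtain ⟨i, hi, hzi⟩ := mem_iUnion₂.1 (ht hz)
    exact mem_iUnion₂.2 ⟨i, hi, open_upper (hW i) hzy hzi⟩
  refine ⟨{m | Minimal (· ∈ K') m}, hmin K' hK' hup, fun m hm => hK'U hm.prop, ?_⟩
  rw [mem_interior_iff_mem_nhds]
  refine Filter.mem_of_superset hKx fun y hy => ?_
  obtain ⟨m, hmy, hm⟩ := exists_minimal hK' (hKK' hy)
  exact ⟨m, hm, hmy⟩

/-- **Main result.** Let `P` be a dcpo whose Scott topology is first countable. If every open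
neighbourhood `U` of every point `x` contains a countable set `E` such that the upper set generated
by `E` is a neighbourhood of `x`, then the Scott topology of `P` is sober. -/
theorem result {P : Type u} [PartialOrder P] [TopologicalSpace P] [Topology.IsScott P Set.univ]
    [FirstCountableTopology P]
    (hdcpo : ∀ D : Set P, D.Nonempty → DirectedOn (· ≤ ·) D → ∃ x, IsLUB D x)
    (hcg : ∀ (x : P) (U : Set P), IsOpen U → x ∈ U →
      ∃ E : Set P, E.Countable ∧ E ⊆ U ∧ x ∈ interior {y | ∃ e ∈ E, e ≤ y}) :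
    QuasiSober P ∧ T0Space P :=
  sober_of_countablyGenerated hdcpo hcg

end Pool.Agent.Results.MP_dd23d5_gt.CountablyGenerated
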